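import Pool.Agent.NTW.StmtsA

/-! NTW squad, row TWP (helper81): two vertices of `v` in one factor of `w`. -/

set_option autoImplicit false

open Matrix Filter Topology

namespace Pool.Agent.NTW.H81

open Pool.Agent.PFS Pool.Agent.PFJ Pool.Agent.NTS

theorem twp (nng : NngStmt) (fcs : FcsStmt) (bxt : BxtStmt) (tbx : TbxStmt) : TwpStmt := by
  intro n C Γ K c τ hD v w hv hw i a b hab hva hvb
  have hC : CC C Γ := hD.toCC
  have hP : PCone C := hC.toPCone
  have hlin := H60.lin n C hP (Fin K) v hv.pes.1
  have hind : Ind2 (v a) (v b) := by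
    have h1 : LinearIndependent ℝ ![v a, v b] := by
      have h2 := hlin.comp ![a, b] (by
        intro x y hxy
        fin_cases x <;> fin_cases y
        · rfl
        · exact absurd hxy hab
        · exact absurd hxy.symm hab
        · rfl)
      have h3 : v ∘ ![a, b] = ![v a, v b] := by
        funext x
        fin_cases x <;> rfl
      rwa [h3] at h2
    exact fun s t hst => LinearIndependent.pair_iff.1 h1 s t hst
  have hτ : τ i ≠ i := by
    intro h0
    unfold Lf at hva hvb
    rw [if_pos h0] at hva hvb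
    obtain ⟨s, hs⟩ := Submodule.mem_span_singleton.1 hva
    obtain ⟨t, ht⟩ := Submodule.mem_span_singleton.1 hvb
    have h1 : t • v a + (-s) • v b = 0 := by
      rw [← hs, ← ht]
      module
    have h2 := (hind _ _ h1).2
    have h3 : s = 0 := by linarith only [h2]
    rw [h3, zero_smul] at hs
    exact hlin.ne_zero a hs.symm
  have hL : Lf C τ w i = Fs C (w i) (w (τ i)) := by
    unfold Lf
    rw [if_neg hτ]
  rw [hL] at hva hvb ⊢
  have hpb := (tbx n C Γ K c τ hD w hw).1 i (τ i) hτ.symm
  have hdim := hD.dim w hw i (τ i) hτ.symm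
  have h3 : 3 ≤ Module.finrank ℝ (Fs C (w i) (w (τ i))) := by
    rw [hdim]
    exact hD.pair i hτ
  have hu := bxt n C Γ hC K hD.three hD.maxc w hw.pes i (τ i) hτ.symm _ hpb h3 (v a) hva (v b) hvb
    (hv.pes.1.cl a) (hv.pes.1.cl b) hind
  have hF : Fs C (v a) (v b) = Fs C (w i) (w (τ i)) :=
    (fcs n C hP (w i + w (τ i)) (hP.cl_add (hw.pes.1.cl i) (hw.pes.1.cl (τ i)))).2.2.2.2
      (v a + v b) hu
  refine ⟨hτ, hF, ?_, fun d hd => ?_⟩
  · rw [← hD.dim v hv a b hab, hF, hdim]
  · by_contra hcon
    push Not at hcon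
    obtain ⟨M, -, hM⟩ := hu.2.2 (v d) hd
    have hs : ∑ j, (M * (if j = a then 1 else 0) + M * (if j = b then 1 else 0) -
        (if j = d then 1 else 0)) • v j = M • (v a + v b) - v d := by
      simp only [sub_smul, add_smul, mul_smul, ite_smul, one_smul, zero_smul,
        Finset.sum_sub_distrib, Finset.sum_add_distrib, smul_ite, smul_zero,
        Finset.sum_ite_eq', Finset.mem_univ, if_true, smul_add]
    rw [← hs] at hM
    have h4 := nng n C hP (Fin K) v hv.pes.1 _ hM d
    simp only [hcon.1, hcon.2, if_false, if_true, mul_zero, add_zero, zero_sub] at h4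
    linarith only [h4]

end Pool.Agent.NTW.H81
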